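import Mathlib
import Pool.Agent.Work.MP_30c208_al.Tables

set_option autoImplicit false

namespace Pool.Agent.Work.MP_30c208_al

def mulL (x y : Fin 120) : Fin 120 :=
  ⟨Nat.land (Nat.shiftRight tabMul (7 * (120 * x.1 + y.1))) 127 % 120,
    Nat.mod_lt _ (by norm_num)⟩

def invL (x : Fin 120) : Fin 120 :=
  ⟨Nat.land (Nat.shiftRight tabInv (7 * x.1)) 127 % 120, Nat.mod_lt _ (by norm_num)⟩

def predL (x : Fin 120) : Fin 120 :=
  ⟨Nat.land (Nat.shiftRight tabPred (7 * x.1)) 127 % 120, Nat.mod_lt _ (by norm_num)⟩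

def genL (x : Fin 120) : Fin 120 :=
  if Nat.testBit tabGen x.1 then 2 else 1

theorem light1 : ∀ x y : Fin 120, mulL (mulL x 1) y = mulL x (mulL 1 y) := by decide +kernel
theorem light2 : ∀ x y : Fin 120, mulL (mulL x 2) y = mulL x (mulL 2 y) := by decide +kernel
theorem pred_ok : ∀ x : Fin 120, x = 0 ∨ (predL x < x ∧ mulL (predL x) (genL x) = x) := by
  decide +kernel
theorem one_mulL : ∀ x : Fin 120, mulL 0 x = x := by decide +kernel
theorem mul_oneL : ∀ x : Fin 120, mulL x 0 = x := by decide +kernel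
theorem inv_mulL : ∀ x : Fin 120, mulL (invL x) x = 0 := by decide +kernel

/-- Induction along the enumeration by words. -/
theorem indL {P : Fin 120 → Prop} (h0 : P 0) (h1 : ∀ x, P x → P (mulL x 1))
    (h2 : ∀ x, P x → P (mulL x 2)) : ∀ x, P x := by
  intro x
  induction x using WellFoundedLT.induction with
  | ind x ih =>
    rcases pred_ok x with h | ⟨h, h'⟩
    · rw [h]; exact h0
    · rw [← h']
      have := ih _ h
      unfold genL
      split_ifs
      · exact h2 _ this
      · exact h1 _ this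

theorem mul_assocL (x m y : Fin 120) : mulL (mulL x m) y = mulL x (mulL m y) := by
  revert x y
  refine indL (P := fun m => ∀ x y, mulL (mulL x m) y = mulL x (mulL m y)) ?_ ?_ ?_ m
  · intro x y; rw [mul_oneL, one_mulL]
  · intro k hk x y
    rw [← hk x 1, light1, hk, light1]
  · intro k hk x y
    rw [← hk x 2, light2, hk, light2]

/-- A copy of `SL(2,5)`. -/
def L : Type := Fin 120

instance : DecidableEq L := inferInstanceAs (DecidableEq (Fin 120))
instance : Fintype L := inferInstanceAs (Fintype (Fin 120))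

instance : Group L :=
  { mul := mulL
    one := (0 : Fin 120)
    inv := invL
    mul_assoc := mul_assocL
    one_mul := one_mulL
    mul_one := mul_oneL
    inv_mul_cancel := inv_mulL }

/-- Elements of `L` by index. -/
def el (n : Fin 120) : L := n

theorem indL' {P : L → Prop} (h0 : P 1) (h1 : ∀ x : L, P x → P (x * el 1))
    (h2 : ∀ x : L, P x → P (x * el 2)) : ∀ x, P x := indL h0 h1 h2

/-- The central involution. -/
def z : L := el 3

abbrev A : Type := ZMod 2 × ZMod 2 × ZMod 2 × ZMod 2

def enc (a : A) : ℕ := a.1.val + 2 * a.2.1.val + 4 * a.2.2.1.val + 8 * a.2.2.2.val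

def dec (n : ℕ) : A :=
  ((n % 2 : ℕ), (n / 2 % 2 : ℕ), (n / 4 % 2 : ℕ), (n / 8 % 2 : ℕ))

def act (l : L) (a : A) : A :=
  dec (Nat.land (Nat.shiftRight tabAct (4 * (16 * (show Fin 120 from l).1 + enc a))) 15)

theorem act_one : ∀ a : A, act 1 a = a := by decide +kernel
theorem act_mul1 : ∀ (x : L) (a : A), act (x * el 1) a = act x (act (el 1) a) := by
  decide +kernel
theorem act_mul2 : ∀ (x : L) (a : A), act (x * el 2) a = act x (act (el 2) a) := by
  decide +kernel
theorem act_add1 : ∀ (a b : A), act (el 1) (a + b) = act (el 1) a + act (el 1) b := by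
  decide +kernel
theorem act_add2 : ∀ (a b : A), act (el 2) (a + b) = act (el 2) a + act (el 2) b := by
  decide +kernel

theorem act_mul (x y : L) (a : A) : act (x * y) a = act x (act y a) := by
  revert x a
  refine indL' (P := fun y => ∀ x a, act (x * y) a = act x (act y a)) ?_ ?_ ?_ y
  · intro x a; rw [mul_one, act_one]
  · intro k hk x a; rw [← mul_assoc, act_mul1, hk, act_mul1]
  · intro k hk x a; rw [← mul_assoc, act_mul2, hk, act_mul2]

theorem act_add (x : L) (a b : A) : act x (a + b) = act x a + act x b := by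
  revert a b
  refine indL' (P := fun x => ∀ a b, act x (a + b) = act x a + act x b) ?_ ?_ ?_ x
  · intro a b; rw [act_one, act_one, act_one]
  · intro k hk a b; rw [act_mul, act_add1, hk, act_mul, act_mul]
  · intro k hk a b; rw [act_mul, act_add2, hk, act_mul, act_mul]

theorem act_zero (x : L) : act x 0 = 0 := by
  have := act_add x 0 0
  simpa using this

theorem z_comm : ∀ x : L, z * x = x * z := by decide +kernel
theorem z_sq : z * z = 1 := by decide +kernel
theorem act_z : ∀ a : A, act z a = a := by decide +kernel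
theorem A_add_self : ∀ a : A, a + a = 0 := by decide +kernel

abbrev U : Type := ZMod 2 × ZMod 2

/-- The cocycle of the quaternion group of order 8 over its centre. -/
def coc (u v : U) : ZMod 2 := u.1 * v.1 + u.2 * v.2 + u.1 * v.2

def zp (r : ZMod 2) : L := if r = 0 then 1 else z

theorem zp_add : ∀ r s : ZMod 2, zp (r + s) = zp r * zp s := by decide +kernel
theorem zp_comm (r : ZMod 2) (x : L) : zp r * x = x * zp r := by
  unfold zp; split_ifs
  · simp
  · exact z_comm x
theorem act_zp (r : ZMod 2) (a : A) : act (zp r) a = a := by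
  unfold zp; split_ifs
  · exact act_one a
  · exact act_z a
theorem zp_mul_self (r : ZMod 2) : zp r * zp r = 1 := by
  unfold zp; split_ifs
  · simp
  · exact z_sq
theorem coc_assoc (u v w : U) : coc u v + coc (u + v) w = coc v w + coc u (v + w) := by
  simp only [coc, Prod.fst_add, Prod.snd_add]; ring
theorem U_add_self : ∀ u : U, u + u = 0 := by decide +kernel

/-- The group `2^4 : (Q_8 ∘ SL(2,5))` of order 7680. -/
@[ext] structure G where
  u : U
  a : A
  l : L
  deriving DecidableEq

namespace G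

def equivProd : G ≃ U × A × L where
  toFun x := (x.u, x.a, x.l)
  invFun x := ⟨x.1, x.2.1, x.2.2⟩
  left_inv _ := rfl
  right_inv _ := rfl

instance : Fintype G := Fintype.ofEquiv _ equivProd.symm

instance : Mul G := ⟨fun x y => ⟨x.u + y.u, x.a + act x.l y.a, x.l * y.l * zp (coc x.u y.u)⟩⟩
instance : One G := ⟨⟨0, 0, 1⟩⟩
instance : Inv G := ⟨fun x => ⟨x.u, act x.l⁻¹ x.a, x.l⁻¹ * zp (coc x.u x.u)⟩⟩

theorem mul_def (x y : G) :
    x * y = ⟨x.u + y.u, x.a + act x.l y.a, x.l * y.l * zp (coc x.u y.u)⟩ := rfl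
theorem one_def : (1 : G) = ⟨0, 0, 1⟩ := rfl
theorem inv_def (x : G) : x⁻¹ = ⟨x.u, act x.l⁻¹ x.a, x.l⁻¹ * zp (coc x.u x.u)⟩ := rfl

instance : Group G := Group.ofLeftAxioms
  (by
    intro x y w
    simp only [mul_def, G.mk.injEq]
    refine ⟨add_assoc _ _ _, ?_, ?_⟩
    · rw [act_mul, act_mul, act_zp, act_add, add_assoc]
    · have h1 : x.l * y.l * zp (coc x.u y.u) * w.l * zp (coc (x.u + y.u) w.u) =
          x.l * y.l * w.l * (zp (coc x.u y.u + coc (x.u + y.u) w.u)) := by
        rw [zp_add, mul_assoc (x.l * y.l), zp_comm, ← mul_assoc, mul_assoc]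
      have h2 : x.l * (y.l * w.l * zp (coc y.u w.u)) * zp (coc x.u (y.u + w.u)) =
          x.l * y.l * w.l * (zp (coc y.u w.u + coc x.u (y.u + w.u))) := by
        rw [zp_add]; simp only [mul_assoc]
      rw [h1, h2, coc_assoc])
  (by
    intro x
    simp only [mul_def, one_def]
    ext <;> simp [act_one, coc, zp])
  (by
    intro x
    simp only [mul_def, one_def, inv_def, G.mk.injEq]
    refine ⟨U_add_self _, ?_, ?_⟩
    · rw [act_mul, act_zp, A_add_self]
    · rw [mul_assoc x.l⁻¹, zp_comm, ← mul_assoc, inv_mul_cancel, one_mul, zp_mul_self])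

theorem card_G : Fintype.card G = 7680 := by
  rw [Fintype.card_congr equivProd]
  simp [Fintype.card_prod, ZMod.card]
  rfl

end G

end Pool.Agent.Work.MP_30c208_al
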