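import Mathlib
import Pool.Agent.Work.MP_30c208_al.Grp

set_option autoImplicit false

namespace Pool.Agent.Work.MP_30c208_al

/-- Membership in a Sylow 2-subgroup (quaternion of order 8) of `L`. -/
def inQ (l : L) : Bool := Nat.testBit maskQ (show Fin 120 from l).1

theorem inQ_mul : ∀ x y : L, inQ x = true → inQ y = true → inQ (x * y) = true := by
  decide +kernel
theorem inQ_inv : ∀ x : L, inQ x = true → inQ x⁻¹ = true := by decide +kernel
theorem inQ_zp : ∀ r : ZMod 2, inQ (zp r) = true := by decide +kernel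
theorem inQ_one : inQ 1 = true := by decide +kernel
theorem card_inQ : Fintype.card {l : L // inQ l = true} = 8 := by decide +kernel

theorem Q_real : ∀ l : L, inQ l = true → ∀ a : A, ∃ m : L, inQ m = true ∧ m * l = l⁻¹ * m ∧
    ∃ b : A, b + act m a = act l⁻¹ a + act l⁻¹ b := by decide +kernel

theorem U_real : ∀ u : U, ∃ v : U, coc v u = coc u u + coc u v := by decide +kernel

/-- Representatives of the quaternion group modulo its centre. -/
def rep4 (c : Fin 4) : L := ![el 0, el 1, el 107, el 112] c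

def lam (a : A) : ℤ := if a.2.1 = 0 then 1 else -1

def DD (a : A) (c : Fin 4) : ℤ := lam (act (rep4 c)⁻¹ a)

def RR (q : L) (c d : Fin 4) : ℤ :=
  if q⁻¹ * rep4 c = rep4 d then 1 else if q⁻¹ * rep4 c = rep4 d * z then -1 else 0

theorem DD_add : ∀ a b : A, ∀ c : Fin 4, DD (a + b) c = DD a c * DD b c := by decide +kernel
theorem DD_zero : ∀ c : Fin 4, DD 0 c = 1 := by decide +kernel
theorem RR_mul : ∀ q r : L, inQ q = true → inQ r = true → ∀ c d : Fin 4,
    RR (q * r) c d = RR q c 0 * RR r 0 d + RR q c 1 * RR r 1 d + RR q c 2 * RR r 2 d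
      + RR q c 3 * RR r 3 d := by decide +kernel
theorem RR_one : ∀ c d : Fin 4, RR 1 c d = if c = d then 1 else 0 := by decide +kernel
theorem RR_DD : ∀ q : L, inQ q = true → ∀ b : A, ∀ c d : Fin 4,
    RR q c d * DD b d = DD (act q b) c * RR q c d := by decide +kernel
theorem RR_z : ∀ c d : Fin 4, RR z c d = if c = d then -1 else 0 := by decide +kernel

/-- Trace of the 4-dimensional monomial representation. -/
def trM (a : A) (q : L) : ℤ :=
  DD a 0 * RR q 0 0 + DD a 1 * RR q 1 1 + DD a 2 * RR q 2 2 + DD a 3 * RR q 3 3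

theorem sum_norm : ∑ a : A, ∑ q : {l : L // inQ l = true},
    trM a q.1 * trM (act (q.1)⁻¹ a) (q.1)⁻¹ = 128 := by decide +kernel

theorem sum_sq : ∑ a : A, ∑ q : {l : L // inQ l = true},
    trM (a + act q.1 a) (q.1 * q.1) = 128 := by decide +kernel

theorem trM_z : ∀ a : A, ∀ q : L, inQ q = true → trM a (q * z) = - trM a q := by decide +kernel

end Pool.Agent.Work.MP_30c208_al
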