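import Mathlib

set_option autoImplicit false

namespace Pool.Agent.Work.MP_30c208_al

open Representation Module TensorProduct

noncomputable section

/-- The trace of `swap ∘ (f ⊗ g)` is the trace of `f ∘ g`. -/
theorem trace_comm_map {V : Type*} [AddCommGroup V] [Module ℂ V] [FiniteDimensional ℂ V]
    (f g : V →ₗ[ℂ] V) :
    LinearMap.trace ℂ (V ⊗[ℂ] V)
      ((TensorProduct.comm ℂ V V).toLinearMap ∘ₗ TensorProduct.map f g) =
    LinearMap.trace ℂ V (f ∘ₗ g) := by
  classical
  let b := Module.finBasis ℂ V
  rw [LinearMap.trace_eq_matrix_trace ℂ (b.tensorProduct b),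
    LinearMap.trace_eq_matrix_trace ℂ b, LinearMap.toMatrix_comp b b b]
  simp only [Matrix.trace, Matrix.diag_apply, Matrix.mul_apply]
  rw [Fintype.sum_prod_type, Finset.sum_comm]
  refine Finset.sum_congr rfl fun i _ => Finset.sum_congr rfl fun j _ => ?_
  rw [LinearMap.toMatrix_apply, LinearMap.toMatrix_apply, LinearMap.toMatrix_apply]
  simp only [Basis.tensorProduct_apply, LinearMap.comp_apply, TensorProduct.map_tmul,
    LinearEquiv.coe_coe, TensorProduct.comm_tmul, Basis.tensorProduct_repr_tmul_apply]
  simp

variable {G : Type*} [Group G] [Fintype G]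
variable {V : Type*} [AddCommGroup V] [Module ℂ V] [FiniteDimensional ℂ V]

/-- Frobenius-Schur indicator of a representation. -/
def nu (ρ : Representation ℂ G V) : ℂ :=
  (Fintype.card G : ℂ)⁻¹ * ∑ g : G, ρ.character (g ^ 2)

theorem card_ne_zero' : (Fintype.card G : ℂ) ≠ 0 := by
  exact_mod_cast Fintype.card_ne_zero

theorem nu_eq_trace [Invertible (Fintype.card G : ℂ)] (ρ : Representation ℂ G V) :
    nu ρ = LinearMap.trace ℂ (V ⊗[ℂ] V)
      ((TensorProduct.comm ℂ V V).toLinearMap ∘ₗ (ρ.tprod ρ).averageMap) := by
  have h : (ρ.tprod ρ).averageMap = (Fintype.card G : ℂ)⁻¹ • ∑ g : G, (ρ.tprod ρ) g := by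
    simp [averageMap, GroupAlgebra.average, map_sum]
  have h2 : (TensorProduct.comm ℂ V V).toLinearMap ∘ₗ (∑ g : G, (ρ.tprod ρ) g) =
      ∑ g : G, (TensorProduct.comm ℂ V V).toLinearMap ∘ₗ (ρ.tprod ρ) g := by
    apply LinearMap.ext
    intro v
    simp [LinearMap.sum_apply, map_sum]
  rw [h, LinearMap.comp_smul, h2, map_smul, map_sum, nu, smul_eq_mul]
  congr 1
  refine Finset.sum_congr rfl fun g _ => ?_
  rw [Representation.tprod_apply, trace_comm_map, character, pow_two, map_mul]
  rfl

/-- Schur's lemma for maps out of the dual. -/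
theorem finrank_dual_le_one (ρ : Representation ℂ G V) [ρ.IsIrreducible] :
    finrank ℂ (IntertwiningMap ρ.dual ρ) ≤ 1 := by
  by_cases h : ∀ f : IntertwiningMap ρ.dual ρ, f = 0
  · have : Subsingleton (IntertwiningMap ρ.dual ρ) := ⟨fun a b => (h a).trans (h b).symm⟩
    rw [finrank_zero_of_subsingleton]
    exact zero_le_one
  · push Not at h
    obtain ⟨f, hf⟩ := h
    have hsurj : Function.Surjective f := (IsIrreducible.surjective_or_eq_zero (ρ := ρ) f).resolve_right hf
    have hbij : Function.Bijective f.toLinearMap := by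
      refine ⟨?_, hsurj⟩
      rw [LinearMap.injective_iff_surjective_of_finrank_eq_finrank (Subspace.dual_finrank_eq)]
      exact hsurj
    let e : Module.Dual ℂ V ≃ₗ[ℂ] V := LinearEquiv.ofBijective f.toLinearMap hbij
    refine finrank_le_one f fun w => ?_
    let u : IntertwiningMap ρ ρ := ⟨w.toLinearMap ∘ₗ e.symm.toLinearMap, by
      intro g
      apply LinearMap.ext
      intro v
      simp only [LinearMap.comp_apply, LinearEquiv.coe_coe]
      obtain ⟨x, rfl⟩ := e.surjective v
      have h1 : ρ g (e x) = e (ρ.dual g x) := by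
        have := IntertwiningMap.isIntertwining _ _ f g x
        exact this.symm
      rw [h1, e.symm_apply_apply, e.symm_apply_apply]
      exact IntertwiningMap.isIntertwining _ _ w g x⟩
    obtain ⟨c, hc⟩ := (IsIrreducible.algebraMap_intertwiningMap_bijective_of_isAlgClosed
      (ρ := ρ)).2 u
    refine ⟨c, ?_⟩
    apply IntertwiningMap.ext
    apply LinearMap.ext
    intro x
    have h2 : u (e x) = w x := by
      show w (e.symm (e x)) = w x
      rw [e.symm_apply_apply]
    have h3 : (algebraMap ℂ (IntertwiningMap ρ ρ) c) (e x) = c • (e x) := by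
      rw [Algebra.algebraMap_eq_smul_one]
      rfl
    have h4 : c • (f x) = w x := by
      rw [← h2, ← hc, h3]
      rfl
    exact h4

theorem finrank_invariants_tprod (ρ : Representation ℂ G V) :
    (finrank ℂ (invariants (ρ.tprod ρ)) : ℂ) =
      (Fintype.card G : ℂ)⁻¹ * ∑ g : G, ρ.character g * ρ.character g := by
  have : Invertible (Nat.card G : ℂ) := by
    rw [Nat.card_eq_fintype_card]; exact invertibleOfNonzero card_ne_zero'
  rw [← card_inv_mul_sum_char_eq_finrank, Nat.card_eq_fintype_card]
  simp [char_tensor]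

theorem finrank_invariants_tprod_le_one (ρ : Representation ℂ G V) [ρ.IsIrreducible] :
    finrank ℂ (invariants (ρ.tprod ρ)) ≤ 1 := by
  have : Invertible (Nat.card G : ℂ) := by
    rw [Nat.card_eq_fintype_card]; exact invertibleOfNonzero card_ne_zero'
  have h1 := finrank_invariants_tprod ρ
  have h2 := card_inv_mul_sum_char_mul_char_eq_finrank (ρ := ρ.dual) (σ := ρ)
  simp only [char_dual, inv_inv] at h2
  rw [Nat.card_eq_fintype_card] at h2
  rw [h2] at h1
  have h3 : finrank ℂ (invariants (ρ.tprod ρ)) = finrank ℂ (IntertwiningMap ρ.dual ρ) := by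
    exact_mod_cast h1
  rw [h3]
  exact finrank_dual_le_one ρ

/-- Frobenius-Schur: the indicator is determined by the number of invariant bilinear forms. -/
theorem nu_cases (ρ : Representation ℂ G V)
    (h : finrank ℂ (invariants (ρ.tprod ρ)) ≤ 1) :
    (finrank ℂ (invariants (ρ.tprod ρ)) = 0 ∧ nu ρ = 0) ∨
    (finrank ℂ (invariants (ρ.tprod ρ)) = 1 ∧ (nu ρ = 1 ∨ nu ρ = -1)) := by
  have : Invertible (Fintype.card G : ℂ) := invertibleOfNonzero card_ne_zero'
  set T := ρ.tprod ρ with hT
  have hproj := isProj_averageMap T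
  rcases Nat.le_one_iff_eq_zero_or_eq_one.mp h with h0 | h1
  · left
    refine ⟨h0, ?_⟩
    have hbot : invariants T = ⊥ := Submodule.finrank_eq_zero.mp h0
    rw [nu_eq_trace]
    have : T.averageMap = 0 := by
      apply LinearMap.ext
      intro v
      have := hproj.map_mem v
      rw [hbot, Submodule.mem_bot] at this
      exact this
    rw [← hT, this, LinearMap.comp_zero, map_zero]
  · right
    refine ⟨h1, ?_⟩
    obtain ⟨w, hw0, hw⟩ := finrank_eq_one_iff'.mp h1
    have hcomm : ∀ x ∈ invariants T, TensorProduct.comm ℂ V V x ∈ invariants T := by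
      intro x hx g
      have hx' := hx g
      have key : ∀ y : V ⊗[ℂ] V, T g (TensorProduct.comm ℂ V V y) =
          TensorProduct.comm ℂ V V (T g y) := by
        intro y
        induction y using TensorProduct.induction_on with
        | zero => simp
        | tmul a b => simp [hT, Representation.tprod_apply]
        | add a b ha hb => rw [map_add, map_add, ha, hb, map_add, map_add]
      rw [key, hx']
    obtain ⟨c, hc⟩ := hw ⟨TensorProduct.comm ℂ V V w.1, hcomm w.1 w.2⟩
    have hc' : TensorProduct.comm ℂ V V w.1 = c • w.1 := by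
      have := congrArg Subtype.val hc
      simpa using this.symm
    have hinv : TensorProduct.comm ℂ V V (TensorProduct.comm ℂ V V w.1) = w.1 := by
      have : ∀ y : V ⊗[ℂ] V, TensorProduct.comm ℂ V V (TensorProduct.comm ℂ V V y) = y := by
        intro y
        induction y using TensorProduct.induction_on with
        | zero => simp
        | tmul a b => simp
        | add a b ha hb => rw [map_add, map_add, ha, hb]
      exact this _
    have hcc : c * c = 1 := by
      rw [hc', map_smul, hc', smul_smul] at hinv
      have hw0' : w.1 ≠ 0 := fun h => hw0 (Subtype.ext h)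
      have : (c * c - 1) • w.1 = 0 := by rw [sub_smul, hinv, one_smul, sub_self]
      rcases smul_eq_zero.mp this with h | h
      · exact sub_eq_zero.mp h
      · exact absurd h hw0'
    have hcav : (TensorProduct.comm ℂ V V).toLinearMap ∘ₗ T.averageMap = c • T.averageMap := by
      apply LinearMap.ext
      intro v
      obtain ⟨a, ha⟩ := hw ⟨T.averageMap v, hproj.map_mem v⟩
      have ha' : T.averageMap v = a • w.1 := by
        have := congrArg Subtype.val ha
        simpa using this.symm
      rw [LinearMap.comp_apply, LinearMap.smul_apply, ha', LinearEquiv.coe_coe, map_smul, hc',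
        smul_smul, smul_smul, mul_comm]
    have htr : LinearMap.trace ℂ (V ⊗[ℂ] V) T.averageMap = 1 := by
      rw [hproj.trace, h1]; simp
    have : nu ρ = c := by
      rw [nu_eq_trace, ← hT, hcav, map_smul, htr, smul_eq_mul, mul_one]
    rw [this]
    rcases mul_self_eq_one_iff.mp hcc with h | h
    · exact Or.inl h
    · exact Or.inr h

theorem nu_mem (ρ : Representation ℂ G V) [ρ.IsIrreducible] :
    nu ρ = 0 ∨ nu ρ = 1 ∨ nu ρ = -1 := by
  rcases nu_cases ρ (finrank_invariants_tprod_le_one ρ) with h | h
  · exact Or.inl h.2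
  · exact Or.inr h.2

theorem nu_ne_zero_of_real (ρ : Representation ℂ G V) [ρ.IsIrreducible]
    (hr : ∀ g, ρ.character g⁻¹ = ρ.character g) : nu ρ ≠ 0 := by
  rcases nu_cases ρ (finrank_invariants_tprod_le_one ρ) with h | h
  · exfalso
    have : Invertible (Nat.card G : ℂ) := by
      rw [Nat.card_eq_fintype_card]; exact invertibleOfNonzero card_ne_zero'
    have h1 := finrank_invariants_tprod ρ
    have h2 := char_orthonormal ρ ρ
    rw [if_pos ⟨Representation.Equiv.refl ρ⟩] at h2
    simp only [hr] at h2
    rw [Nat.card_eq_fintype_card] at h2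
    rw [h2, h.1] at h1
    norm_num at h1
  · rcases h.2 with h | h <;> rw [h] <;> norm_num

end

end Pool.Agent.Work.MP_30c208_al
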