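import Mathlib
import Pool.Agent.Work.MP_30c208_al.Grp

set_option autoImplicit false

namespace Pool.Agent.Work.MP_30c208_al

/-- Element of order 3. -/
def c3 : L := el 4
/-- Element of order 5. -/
def c5 : L := el 2

theorem sq_one_act : ∀ l : L, l * l = 1 → ∀ a : A, act l a = a := by decide +kernel
theorem inj_of_ne : ∀ l : L, l * l ≠ 1 → l * l ≠ z →
    ∀ a b : A, a + act l a = b + act l b → a = b := by decide +kernel
theorem card_sq_one : (Finset.univ.filter (fun l : L => l * l = 1)).card = 2 := by
  decide +kernel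
theorem card_sq_z : ∀ b : A,
    (Finset.univ.filter (fun p : L × A => p.1 * p.1 = z ∧ p.2 + act p.1 p.2 = b)).card =
      if b = 0 then 120 else 24 := by decide +kernel

def ty (l : L) : Fin 5 :=
  if l * l = 1 then 0 else if l * l = z then 1 else
  if (∃ m, l * l * m = m * c3) then 2 else if (∃ m, l * l * m = m * c5) then 3 else 4

theorem ty_four : ∀ l : L, ty l = 4 → ∃ m, l * l * m = m * (c5 * c5) := by decide +kernel
theorem card_ty : ∀ i : Fin 5, (Finset.univ.filter (fun l : L => ty l = i)).card =
    ![2, 30, 40, 24, 24] i := by decide +kernel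

theorem c3_pow : c3 * c3 * c3 = 1 := by decide +kernel
theorem c5_pow : c5 * c5 * c5 * c5 * c5 = 1 := by decide +kernel
theorem c3_real : ∃ m, c3 * c3 * m = m * c3 := by decide +kernel
theorem c5_real : ∃ m, (c5 * c5 * c5 * c5) * m = m * c5 := by decide +kernel
theorem c5_real2 : ∃ m, (c5 * c5 * c5) * m = m * (c5 * c5) := by decide +kernel
theorem L_real : ∀ l : L, ∃ m, m * l = l⁻¹ * m := by decide +kernel

end Pool.Agent.Work.MP_30c208_al
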