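import Mathlib
import Pool.Agent.Work.MP_30c208_al.FS
import Pool.Agent.Work.MP_30c208_al.Facts

set_option autoImplicit false
set_option linter.constructorNameAsVariable false
set_option linter.unusedSectionVars false

namespace Pool.Agent.Work.MP_30c208_al

open Representation Module

noncomputable section

/-- Schur's lemma: an operator commuting with an irreducible representation is scalar. -/
theorem schur {G : Type*} [Group G] {V : Type*} [AddCommGroup V] [Module ℂ V]
    [FiniteDimensional ℂ V] (ρ : Representation ℂ G V) [ρ.IsIrreducible] (T : V →ₗ[ℂ] V)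
    (hT : ∀ g, T ∘ₗ ρ g = ρ g ∘ₗ T) : ∃ c : ℂ, T = c • LinearMap.id := by
  obtain ⟨c, hc⟩ := (IsIrreducible.algebraMap_intertwiningMap_bijective_of_isAlgClosed
      (ρ := ρ)).2 ⟨T, hT⟩
  refine ⟨c, ?_⟩
  have : T = (algebraMap ℂ (IntertwiningMap ρ ρ) c).toLinearMap :=
    (congrArg IntertwiningMap.toLinearMap hc).symm
  rw [this, Algebra.algebraMap_eq_smul_one]
  rfl

theorem nontrivial_of_irr {G : Type*} [Group G] {V : Type*} [AddCommGroup V] [Module ℂ V]
    (ρ : Representation ℂ G V) [h : ρ.IsIrreducible] : Nontrivial V := by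
  by_contra hn
  rw [not_nontrivial_iff_subsingleton] at hn
  obtain ⟨⟨a, b, hab⟩⟩ := h.toNontrivial
  apply hab
  ext v
  have : v = 0 := Subsingleton.elim _ _
  rw [this]
  constructor
  · intro _; exact b.toSubmodule.zero_mem
  · intro _; exact a.toSubmodule.zero_mem

namespace G

def zG : G := ⟨0, 0, z⟩

theorem coc_zero_left (u : U) : coc 0 u = 0 := by simp [coc]
theorem coc_zero_right (u : U) : coc u 0 = 0 := by simp [coc]
theorem zp_zero : zp 0 = 1 := by simp [zp]
theorem zp_one : zp 1 = z := by simp [zp]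

theorem mul_zG (x : G) : x * zG = ⟨x.u, x.a, x.l * z⟩ := by
  simp [mul_def, zG, act_zero, coc_zero_right, zp_zero]

theorem zG_mul (x : G) : zG * x = ⟨x.u, x.a, x.l * z⟩ := by
  simp [mul_def, zG, act_z, coc_zero_left, zp_zero, z_comm]

theorem zG_comm (x : G) : x * zG = zG * x := by rw [mul_zG, zG_mul]

theorem zG_sq : zG * zG = 1 := by
  rw [mul_zG]; simp [zG, z_sq, one_def]

theorem sum_G {M : Type*} [AddCommMonoid M] (f : G → M) :
    ∑ x : G, f x = ∑ u : U, ∑ a : A, ∑ l : L, f ⟨u, a, l⟩ := by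
  rw [← Equiv.sum_comp equivProd.symm, Fintype.sum_prod_type]
  refine Finset.sum_congr rfl fun u _ => ?_
  rw [Fintype.sum_prod_type]
  rfl

theorem q_eq (u : U) : coc u u = if u = 0 then 0 else 1 := by
  revert u; decide

theorem sq_def (u : U) (a : A) (l : L) :
    (⟨u, a, l⟩ : G) ^ 2 = ⟨0, a + act l a, l * l * zp (coc u u)⟩ := by
  rw [pow_two, mul_def]; simp [U_add_self]

end G

open G

variable {V : Type*} [AddCommGroup V] [Module ℂ V] [FiniteDimensional ℂ V]
variable (ρ : Representation ℂ G V)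

theorem rho_z [ρ.IsIrreducible] : ∃ ε : ℂ, (ε = 1 ∨ ε = -1) ∧ ρ zG = ε • LinearMap.id := by
  obtain ⟨c, hc⟩ := schur ρ (ρ zG) (fun g => by
    have h1 : ρ zG * ρ g = ρ g * ρ zG := by rw [← map_mul, ← map_mul, zG_comm]
    exact h1)
  refine ⟨c, ?_, hc⟩
  have h2 : ρ zG * ρ zG = 1 := by rw [← map_mul, zG_sq, map_one]
  rw [hc] at h2
  have := nontrivial_of_irr ρ
  obtain ⟨v, hv⟩ := exists_ne (0 : V)
  have h3 := LinearMap.congr_fun h2 v
  simp only [Module.End.mul_apply, LinearMap.smul_apply, LinearMap.id_apply,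
    Module.End.one_apply, smul_smul] at h3
  have h4 : (c * c - 1) • v = 0 := by rw [sub_smul, h3, one_smul, sub_self]
  rcases smul_eq_zero.mp h4 with h | h
  · exact mul_self_eq_one_iff.mp (sub_eq_zero.mp h)
  · exact absurd h hv

/-- The function `F a l = χ(0,a,l)`. -/
def F (a : A) (l : L) : ℂ := ρ.character ⟨0, a, l⟩

theorem F_z {ε : ℂ} (h : ρ zG = ε • LinearMap.id) (a : A) (l : L) :
    F ρ a (l * z) = ε * F ρ a l := by
  have h1 : (⟨0, a, l * z⟩ : G) = ⟨0, a, l⟩ * zG := by rw [mul_zG]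
  rw [F, h1, character, map_mul, h, F, character]
  have : (ρ ⟨0, a, l⟩ * (ε • LinearMap.id) : V →ₗ[ℂ] V) = ε • ρ ⟨0, a, l⟩ := by
    apply LinearMap.ext; intro v; simp
  rw [this, map_smul, smul_eq_mul]

theorem F_zero_one : F ρ 0 1 = finrank ℂ V := by
  have : (⟨0, 0, 1⟩ : G) = 1 := rfl
  rw [F, this, char_one]

theorem nu_formula {ε : ℂ} (h : ρ zG = ε • LinearMap.id) :
    nu ρ = (7680 : ℂ)⁻¹ * ((1 + 3 * ε) * ∑ l : L, ∑ a : A, F ρ (a + act l a) (l * l)) := by
  rw [nu, card_G, sum_G]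
  congr 1
  have h1 : ∀ u : U, ∑ a : A, ∑ l : L, ρ.character ((⟨u, a, l⟩ : G) ^ 2) =
      (if u = 0 then 1 else ε) * ∑ l : L, ∑ a : A, F ρ (a + act l a) (l * l) := by
    intro u
    rw [Finset.sum_comm, Finset.mul_sum]
    refine Finset.sum_congr rfl fun l _ => ?_
    rw [Finset.mul_sum]
    refine Finset.sum_congr rfl fun a _ => ?_
    rw [sq_def, q_eq]
    split_ifs
    · rw [zp_zero, mul_one, one_mul]; rfl
    · rw [zp_one]; exact F_z ρ h _ _
  rw [Finset.sum_congr rfl fun u _ => h1 u, ← Finset.sum_mul]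
  congr 1
  rw [Fintype.sum_prod_type]
  have : (Finset.univ : Finset (ZMod 2)) = {0, 1} := rfl
  rw [this]
  simp [Prod.ext_iff]
  ring

/-- The sum of the operators in the normal subgroup `A`. -/
def PA : V →ₗ[ℂ] V := ∑ a : A, ρ ⟨0, a, 1⟩

theorem mul_a (g : G) (a : A) : g * ⟨0, a, 1⟩ = ⟨0, act g.l a, 1⟩ * g := by
  simp only [mul_def, coc_zero_left, coc_zero_right, zp_zero, act_one, add_zero, zero_add,
    mul_one, one_mul]
  rw [add_comm]

def actEquiv (l : L) : A ≃ A where
  toFun := act l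
  invFun := act l⁻¹
  left_inv a := by rw [← act_mul, inv_mul_cancel, act_one]
  right_inv a := by rw [← act_mul, mul_inv_cancel, act_one]

theorem PA_comm (g : G) : PA ρ ∘ₗ ρ g = ρ g ∘ₗ PA ρ := by
  have h1 : ρ g * PA ρ = ∑ a : A, ρ (g * ⟨0, a, 1⟩) := by
    rw [PA, Finset.mul_sum]
    exact Finset.sum_congr rfl fun a _ => (map_mul _ _ _).symm
  have h2 : PA ρ * ρ g = ∑ a : A, ρ (⟨0, a, 1⟩ * g) := by
    rw [PA, Finset.sum_mul]
    exact Finset.sum_congr rfl fun a _ => (map_mul _ _ _).symm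
  show PA ρ * ρ g = ρ g * PA ρ
  rw [h1, h2, ← Equiv.sum_comp (actEquiv g.l)]
  exact Finset.sum_congr rfl fun a _ => by rw [mul_a]; rfl

theorem rho_mul_PA (b : A) : ρ ⟨0, b, 1⟩ * PA ρ = PA ρ := by
  rw [PA, Finset.mul_sum]
  have : ∀ a : A, ρ ⟨0, b, 1⟩ * ρ ⟨0, a, 1⟩ = ρ ⟨0, b + a, 1⟩ := by
    intro a
    rw [← map_mul, mul_def]
    simp [act_one, coc_zero_left, zp_zero]
  rw [Finset.sum_congr rfl fun a _ => this a]
  exact Equiv.sum_comp (Equiv.addLeft b) (fun a => ρ (⟨0, a, 1⟩ : G))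

theorem PA_cases [ρ.IsIrreducible] : PA ρ = 0 ∨ ∀ a : A, ρ ⟨0, a, 1⟩ = 1 := by
  obtain ⟨c, hc⟩ := schur ρ (PA ρ) (PA_comm ρ)
  by_cases h0 : c = 0
  · left; rw [hc, h0, zero_smul]
  · right
    intro a
    have h1 := rho_mul_PA ρ a
    rw [hc] at h1
    apply LinearMap.ext
    intro v
    have h2 := LinearMap.congr_fun h1 v
    simp only [Module.End.mul_apply, LinearMap.smul_apply, LinearMap.id_apply, map_smul] at h2
    have h3 : c • (ρ ⟨0, a, 1⟩ v - v) = 0 := by rw [smul_sub, h2, sub_self]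
    rcases smul_eq_zero.mp h3 with h | h
    · exact absurd h h0
    · exact sub_eq_zero.mp h

theorem sum_F_of_PA (h : PA ρ = 0) (m : L) : ∑ b : A, F ρ b m = 0 := by
  have h1 : ∀ b : A, F ρ b m = LinearMap.trace ℂ V (ρ ⟨0, b, 1⟩ * ρ ⟨0, 0, m⟩) := by
    intro b
    rw [← map_mul, mul_def]
    simp [act_one, coc_zero_left, zp_zero, F, character]
  rw [Finset.sum_congr rfl fun b _ => h1 b, ← map_sum, ← Finset.sum_mul]
  show LinearMap.trace ℂ V (PA ρ * _) = 0
  rw [h, zero_mul, map_zero]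

theorem sum_zero_case {ε : ℂ} (hz : ρ zG = ε • LinearMap.id) (h : PA ρ = 0) :
    ∑ l : L, ∑ a : A, F ρ (a + act l a) (l * l) = (32 + 96 * ε) * finrank ℂ V := by
  have h1 : ∀ l : L, ∑ a : A, F ρ (a + act l a) (l * l) =
      (if l * l = 1 then 16 * F ρ 0 1 else 0) +
      (if l * l = z then ∑ a : A, F ρ (a + act l a) z else 0) := by
    intro l
    by_cases h1 : l * l = 1
    · have hz1 : (1 : L) ≠ z := by decide
      rw [if_pos h1, h1, if_neg hz1, add_zero]
      have : ∀ a : A, F ρ (a + act l a) 1 = F ρ 0 1 := by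
        intro a; rw [sq_one_act l h1, A_add_self]
      rw [Finset.sum_congr rfl fun a _ => this a, Finset.sum_const, Finset.card_univ]
      have : Fintype.card A = 16 := by decide
      rw [this, nsmul_eq_mul]; norm_num
    · by_cases h2 : l * l = z
      · rw [if_neg h1, if_pos h2, h2, zero_add]
      · rw [if_neg h1, if_neg h2, add_zero]
        have hinj : Function.Injective (fun a : A => a + act l a) :=
          fun a b hab => inj_of_ne l h1 h2 a b hab
        have hbij : Function.Bijective (fun a : A => a + act l a) :=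
          (Finite.injective_iff_bijective).mp hinj
        rw [← sum_F_of_PA ρ h (l * l)]
        exact Function.Bijective.sum_comp hbij (fun b => F ρ b (l * l))
  rw [Finset.sum_congr rfl fun l _ => h1 l, Finset.sum_add_distrib]
  have h2 : ∑ l : L, (if l * l = 1 then 16 * F ρ 0 1 else 0) = 32 * F ρ 0 1 := by
    rw [← Finset.sum_filter, Finset.sum_const, card_sq_one, nsmul_eq_mul]
    push_cast; ring
  have h3 : ∑ l : L, (if l * l = z then ∑ a : A, F ρ (a + act l a) z else 0) =
      96 * F ρ 0 z := by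
    have e1 : ∑ l : L, (if l * l = z then ∑ a : A, F ρ (a + act l a) z else 0) =
        ∑ p : L × A, if p.1 * p.1 = z then F ρ (p.2 + act p.1 p.2) z else 0 := by
      rw [Fintype.sum_prod_type]
      refine Finset.sum_congr rfl fun l _ => ?_
      split_ifs
      · rfl
      · simp
    rw [e1, ← Finset.sum_filter]
    have e2 : ∑ p ∈ Finset.univ.filter (fun p : L × A => p.1 * p.1 = z),
        F ρ (p.2 + act p.1 p.2) z =
        ∑ b : A, ∑ p ∈ (Finset.univ.filter (fun p : L × A => p.1 * p.1 = z)).filter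
          (fun p => p.2 + act p.1 p.2 = b), F ρ (p.2 + act p.1 p.2) z := by
      rw [Finset.sum_fiberwise]
    rw [e2]
    have e3 : ∀ b : A, ∑ p ∈ (Finset.univ.filter (fun p : L × A => p.1 * p.1 = z)).filter
          (fun p => p.2 + act p.1 p.2 = b), F ρ (p.2 + act p.1 p.2) z =
        (24 : ℂ) * F ρ b z + (if b = 0 then 96 * F ρ 0 z else 0) := by
      intro b
      have e4 : ∀ p ∈ (Finset.univ.filter (fun p : L × A => p.1 * p.1 = z)).filter
          (fun p => p.2 + act p.1 p.2 = b), F ρ (p.2 + act p.1 p.2) z = F ρ b z := by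
        intro p hp
        simp only [Finset.mem_filter] at hp
        exact congrArg (fun t => F ρ t z) hp.2
      have e5 := card_sq_z b
      rw [Finset.sum_congr rfl e4, Finset.sum_const, Finset.filter_filter, e5]
      split_ifs with hb
      · rw [hb, nsmul_eq_mul]; push_cast; ring
      · rw [nsmul_eq_mul]; push_cast; ring
    rw [Finset.sum_congr rfl fun b _ => e3 b, Finset.sum_add_distrib, ← Finset.mul_sum,
      sum_F_of_PA ρ h z, mul_zero, zero_add]
    simp
  rw [h2, h3]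
  have h4 : F ρ 0 z = ε * F ρ 0 1 := by
    have := F_z ρ hz 0 1
    rwa [one_mul] at this
  rw [h4, F_zero_one]
  ring

end

end Pool.Agent.Work.MP_30c208_al
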