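import Mathlib
import Pool.Agent.Work.MP_30c208_al.TO
import Pool.Agent.Work.MP_30c208_al.Facts2

set_option autoImplicit false
set_option linter.constructorNameAsVariable false
set_option linter.unusedSectionVars false

namespace Pool.Agent.Work.MP_30c208_al

open Representation Module G

noncomputable section

/-- Trace of the projection onto the fixed space of an operator of finite order. -/
theorem trace_fixed {V : Type*} [AddCommGroup V] [Module ℂ V] [FiniteDimensional ℂ V]
    (T : V →ₗ[ℂ] V) (n : ℕ) (hn : 0 < n) (hT : T ^ n = 1) :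
    (n : ℂ)⁻¹ * ∑ i ∈ Finset.range n, LinearMap.trace ℂ V (T ^ i) =
      finrank ℂ (LinearMap.eqLocus T 1) := by
  have hn' : (n : ℂ) ≠ 0 := by exact_mod_cast hn.ne'
  set P : V →ₗ[ℂ] V := (n : ℂ)⁻¹ • ∑ i ∈ Finset.range n, T ^ i with hP
  have hTs : T * (∑ i ∈ Finset.range n, T ^ i) = ∑ i ∈ Finset.range n, T ^ i := by
    rw [Finset.mul_sum]
    have h1 : ∀ i ∈ Finset.range n, T * T ^ i = T ^ (i + 1) := fun i _ => (pow_succ' T i).symm
    rw [Finset.sum_congr rfl h1]
    have h2 := Finset.sum_range_succ (fun i => T ^ i) n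
    have h3 := Finset.sum_range_succ' (fun i => T ^ i) n
    rw [h2] at h3
    rw [hT, pow_zero] at h3
    exact (add_right_cancel h3).symm
  have hproj : LinearMap.IsProj (LinearMap.eqLocus T 1) P := by
    constructor
    · intro x
      rw [LinearMap.mem_eqLocus, Module.End.one_apply, hP, LinearMap.smul_apply, map_smul]
      have := LinearMap.congr_fun hTs x
      rw [Module.End.mul_apply] at this
      rw [this]
    · intro x hx
      rw [LinearMap.mem_eqLocus, Module.End.one_apply] at hx
      have h1 : ∀ i : ℕ, (T ^ i) x = x := by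
        intro i
        induction i with
        | zero => simp
        | succ k ih => rw [pow_succ, Module.End.mul_apply, hx, ih]
      rw [hP, LinearMap.smul_apply, LinearMap.sum_apply, Finset.sum_congr rfl fun i _ => h1 i,
        Finset.sum_const, Finset.card_range, ← Nat.cast_smul_eq_nsmul ℂ, smul_smul,
        inv_mul_cancel₀ hn', one_smul]
  have htr := hproj.trace
  rw [hP, map_smul, map_sum, smul_eq_mul] at htr
  exact htr

/-- The embedding of `L` into `G`. -/
def iota : L →* G where
  toFun l := ⟨0, 0, l⟩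
  map_one' := rfl
  map_mul' x y := by
    simp [G.mul_def, act_zero, G.coc_zero_left, G.zp_zero]

variable {V : Type*} [AddCommGroup V] [Module ℂ V] [FiniteDimensional ℂ V]
variable (ρ : Representation ℂ G V)

theorem F_const (h : ∀ a : A, ρ ⟨0, a, 1⟩ = 1) (a : A) (l : L) : F ρ a l = F ρ 0 l := by
  have h1 : (⟨0, a, l⟩ : G) = ⟨0, a, 1⟩ * ⟨0, 0, l⟩ := by
    simp [G.mul_def, act_one, G.coc_zero_left, G.zp_zero]
  rw [F, h1, character, map_mul, h, one_mul]
  rfl

theorem char_const (h : ∀ a : A, ρ ⟨0, a, 1⟩ = 1) (u : U) (a : A) (l : L) :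
    ρ.character ⟨u, a, l⟩ = ρ.character ⟨u, 0, l⟩ := by
  have h1 : (⟨u, a, l⟩ : G) = ⟨0, a, 1⟩ * ⟨u, 0, l⟩ := by
    simp [G.mul_def, act_one, G.coc_zero_left, G.zp_zero]
  rw [h1, character, map_mul, h, one_mul]
  rfl

theorem char_eq_of_conj {H : Type*} [Group H] (σ : Representation ℂ H V) {x y h : H}
    (hh : x * h = h * y) : σ.character x = σ.character y := by
  have : x = h * y * h⁻¹ := by rw [← hh, mul_inv_cancel_right]
  rw [this, char_conj]

theorem F_conj {l m k : L} (h : l * m = m * k) : F ρ 0 l = F ρ 0 k := by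
  have h1 : iota l * iota m = iota m * iota k := by rw [← map_mul, h, map_mul]
  exact char_eq_of_conj ρ h1

theorem char_real (h : ∀ a : A, ρ ⟨0, a, 1⟩ = 1) (g : G) :
    ρ.character g⁻¹ = ρ.character g := by
  obtain ⟨u, a, l⟩ := g
  rw [G.inv_def, char_const ρ h, char_const ρ h u a l]
  obtain ⟨v, hv⟩ := U_real u
  obtain ⟨m, hm⟩ := L_real l
  apply char_eq_of_conj ρ (h := ⟨v, 0, m⟩)
  simp only [G.mul_def, act_zero, add_zero]
  rw [hv, hm, zp_add, mul_assoc l⁻¹ (zp (coc u u)) m, zp_comm, add_comm u v]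
  simp only [mul_assoc]

theorem sum_one_case {ε : ℂ} (hz : ρ zG = ε • LinearMap.id)
    (h : ∀ a : A, ρ ⟨0, a, 1⟩ = 1) :
    ∑ l : L, ∑ a : A, F ρ (a + act l a) (l * l) =
      16 * ((30 * ε - 30) * finrank ℂ V +
        60 * (finrank ℂ (LinearMap.eqLocus (ρ (iota c3)) 1) +
          finrank ℂ (LinearMap.eqLocus (ρ (iota c5)) 1))) := by
  have h1 : ∀ l : L, ∑ a : A, F ρ (a + act l a) (l * l) = 16 * F ρ 0 (l * l) := by
    intro l
    rw [Finset.sum_congr rfl fun a _ => F_const ρ h (a + act l a) (l * l), Finset.sum_const,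
      Finset.card_univ]
    have : Fintype.card A = 16 := by decide
    rw [this, nsmul_eq_mul]; norm_num
  rw [Finset.sum_congr rfl fun l _ => h1 l, ← Finset.mul_sum]
  congr 1
  let g : Fin 5 → ℂ := ![F ρ 0 1, F ρ 0 z, F ρ 0 c3, F ρ 0 c5, F ρ 0 (c5 * c5)]
  have h2 : ∀ l : L, F ρ 0 (l * l) = g (ty l) := by
    intro l
    have hty : ty l = ty l := rfl
    conv_rhs at hty => unfold ty
    split_ifs at hty with a1 a2 a3 a4
    · rw [hty, a1]; rfl
    · rw [hty, a2]; rfl
    · rw [hty]; obtain ⟨m, hm⟩ := a3; exact F_conj ρ hm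
    · rw [hty]; obtain ⟨m, hm⟩ := a4; exact F_conj ρ hm
    · rw [hty]; obtain ⟨m, hm⟩ := ty_four l hty; exact F_conj ρ hm
  rw [Finset.sum_congr rfl fun l _ => h2 l]
  have h3 : ∑ l : L, g (ty l) = ∑ i : Fin 5, (![2, 30, 40, 24, 24] i : ℕ) * g i := by
    rw [← Finset.sum_fiberwise (s := Finset.univ) (g := ty)]
    refine Finset.sum_congr rfl fun i _ => ?_
    have h4 : ∀ l ∈ Finset.univ.filter (fun l : L => ty l = i), g (ty l) = g i := by
      intro l hl
      simp only [Finset.mem_filter] at hl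
      exact congrArg g hl.2
    rw [Finset.sum_congr rfl h4, Finset.sum_const, nsmul_eq_mul]
    have h5 := card_ty i
    rw [h5]
  rw [h3]
  have t3 := trace_fixed (ρ (iota c3)) 3 (by norm_num) (by
    rw [← map_pow, ← map_pow]
    have : c3 ^ 3 = 1 := by rw [pow_succ, pow_two]; exact c3_pow
    rw [this, map_one, map_one])
  have t5 := trace_fixed (ρ (iota c5)) 5 (by norm_num) (by
    rw [← map_pow, ← map_pow]
    have : c5 ^ 5 = 1 := by
      have := c5_pow
      rw [pow_succ, pow_succ, pow_succ, pow_two]; exact this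
    rw [this, map_one, map_one])
  have e : ∀ (x : L) (i : ℕ), LinearMap.trace ℂ V (ρ (iota x) ^ i) = F ρ 0 (x ^ i) := by
    intro x i
    rw [← map_pow, ← map_pow]; rfl
  simp only [Finset.sum_range_succ, Finset.sum_range_zero, e, zero_add, pow_zero, pow_one] at t3 t5
  have r3 : F ρ 0 (c3 ^ 2) = F ρ 0 c3 := by
    obtain ⟨m, hm⟩ := c3_real
    rw [pow_two]; exact F_conj ρ hm
  have r54 : F ρ 0 (c5 ^ 4) = F ρ 0 c5 := by
    obtain ⟨m, hm⟩ := c5_real
    have : c5 ^ 4 = c5 * c5 * c5 * c5 := by rw [pow_succ, pow_succ, pow_two]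
    rw [this]; exact F_conj ρ hm
  have r53 : F ρ 0 (c5 ^ 3) = F ρ 0 (c5 * c5) := by
    obtain ⟨m, hm⟩ := c5_real2
    have : c5 ^ 3 = c5 * c5 * c5 := by rw [pow_succ, pow_two]
    rw [this]; exact F_conj ρ hm
  have r52 : F ρ 0 (c5 ^ 2) = F ρ 0 (c5 * c5) := by rw [pow_two]
  rw [r3] at t3
  rw [r52, r53, r54] at t5
  have hzz : F ρ 0 z = ε * F ρ 0 1 := by
    have := F_z ρ hz 0 1
    rwa [one_mul] at this
  rw [← t3, ← t5, ← F_zero_one ρ]
  simp only [Fin.sum_univ_five, g]
  simp
  rw [hzz]
  ring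

theorem fixed_disjoint (hz : ρ zG = (-1 : ℂ) • LinearMap.id) :
    Disjoint (LinearMap.eqLocus (ρ (iota c3)) 1) (LinearMap.eqLocus (ρ (iota c5)) 1) := by
  rw [Submodule.disjoint_def]
  intro v h3 h5
  rw [LinearMap.mem_eqLocus, Module.End.one_apply] at h3 h5
  have hw : z = c3 * c3 * c5 * c3 * c3 * c5 := by decide
  have h1 : ρ zG v = v := by
    have : (zG : G) = iota z := rfl
    rw [this, hw]
    simp only [map_mul, Module.End.mul_apply, h3, h5]
  rw [hz, LinearMap.smul_apply, LinearMap.id_apply, neg_smul, one_smul] at h1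
  have h2 : (2 : ℂ) • v = 0 := by
    rw [two_smul]
    nth_rewrite 1 [← h1]
    simp
  exact (smul_eq_zero.mp h2).resolve_left two_ne_zero

/-- Every irreducible representation of `G` has Frobenius-Schur indicator 1. -/
theorem G_TO [ρ.IsIrreducible] : nu ρ = 1 := by
  obtain ⟨ε, hε, hz⟩ := rho_z ρ
  have hnt := nontrivial_of_irr ρ
  have hpos : 0 < finrank ℂ V := finrank_pos
  have hform := nu_formula ρ hz
  rcases PA_cases ρ with hA | hA
  · rw [sum_zero_case ρ hz hA] at hform
    rcases hε with rfl | rfl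
    · have h1 : nu ρ = (finrank ℂ V : ℂ) / 15 := by rw [hform]; ring
      rcases nu_mem ρ with h | h | h
      · exfalso
        rw [h1, div_eq_zero_iff] at h
        rcases h with h | h
        · exact hpos.ne' (by exact_mod_cast h)
        · norm_num at h
      · exact h
      · exfalso
        rw [h1] at h
        have h2 : ((finrank ℂ V + 15 : ℕ) : ℂ) = 0 := by
          push_cast
          linear_combination 15 * h
        have h3 : finrank ℂ V + 15 = 0 := by exact_mod_cast h2
        omega
    · have h1 : nu ρ = (finrank ℂ V : ℂ) / 60 := by rw [hform]; ring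
      rcases nu_mem ρ with h | h | h
      · exfalso
        rw [h1, div_eq_zero_iff] at h
        rcases h with h | h
        · exact hpos.ne' (by exact_mod_cast h)
        · norm_num at h
      · exact h
      · exfalso
        rw [h1] at h
        have h2 : ((finrank ℂ V + 60 : ℕ) : ℂ) = 0 := by
          push_cast
          linear_combination 60 * h
        have h3 : finrank ℂ V + 60 = 0 := by exact_mod_cast h2
        omega
  · have hne := nu_ne_zero_of_real ρ (char_real ρ hA)
    rw [sum_one_case ρ hz hA] at hform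
    rcases nu_mem ρ with h | h | h
    · exact absurd h hne
    · exact h
    · exfalso
      set d3 := finrank ℂ (LinearMap.eqLocus (ρ (iota c3)) 1) with hd3
      set d5 := finrank ℂ (LinearMap.eqLocus (ρ (iota c5)) 1) with hd5
      rcases hε with rfl | rfl
      · have h1 : nu ρ = ((d3 : ℂ) + d5) / 2 := by rw [hform]; ring
        rw [h1] at h
        have h2 : ((d3 + d5 + 2 : ℕ) : ℂ) = 0 := by
          push_cast
          linear_combination 2 * h
        have h3 : d3 + d5 + 2 = 0 := by exact_mod_cast h2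
        omega
      · have h1 : nu ρ = ((finrank ℂ V : ℂ) - d3 - d5) / 4 := by rw [hform]; ring
        have hle : d3 + d5 ≤ finrank ℂ V :=
          Submodule.finrank_add_finrank_le_of_disjoint (fixed_disjoint ρ hz)
        rw [h1] at h
        have h2 : ((finrank ℂ V + 4 : ℕ) : ℂ) = ((d3 + d5 : ℕ) : ℂ) := by
          push_cast
          linear_combination 4 * h
        have h3 : finrank ℂ V + 4 = d3 + d5 := by exact_mod_cast h2
        omega

end

end Pool.Agent.Work.MP_30c208_al
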