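import Mathlib
import Pool.Agent.Work.MP_30c208_al.TO2

set_option autoImplicit false
set_option linter.constructorNameAsVariable false
set_option linter.unusedSectionVars false

namespace Pool.Agent.Work.MP_30c208_al

open Representation Module G
open scoped ComplexOrder

noncomputable section

/-- The Sylow 2-subgroup, as a subgroup. -/
def SG : Subgroup G where
  carrier := {x | inQ x.l = true}
  one_mem' := inQ_one
  mul_mem' := by
    intro x y hx hy
    exact inQ_mul _ _ (inQ_mul _ _ hx hy) (inQ_zp _)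
  inv_mem' := by
    intro x hx
    exact inQ_mul _ _ (inQ_inv _ hx) (inQ_zp _)

theorem mem_SG (x : G) : x ∈ SG ↔ inQ x.l = true := Iff.rfl

def equivSG : SG ≃ U × A × {l : L // inQ l = true} where
  toFun x := (x.1.u, x.1.a, ⟨x.1.l, x.2⟩)
  invFun x := ⟨⟨x.1, x.2.1, x.2.2.1⟩, x.2.2.2⟩
  left_inv _ := rfl
  right_inv _ := rfl

theorem card_SG : Nat.card SG = 512 := by
  rw [Nat.card_congr equivSG, Nat.card_prod (U) (A × {l : L // inQ l = true}),
    Nat.card_prod A {l : L // inQ l = true}]
  have h1 : Nat.card {l : L // inQ l = true} = 8 := by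
    rw [Nat.card_eq_fintype_card]; exact card_inQ
  have h2 : Nat.card U = 4 := by rw [Nat.card_eq_fintype_card]; rfl
  have h3 : Nat.card A = 16 := by rw [Nat.card_eq_fintype_card]; rfl
  rw [h1, h2, h3]

theorem isPGroup_SG : IsPGroup 2 SG := IsPGroup.of_card (n := 9) (by rw [card_SG]; norm_num)

theorem index_SG : SG.index = 15 := by
  have h1 := SG.card_mul_index
  rw [card_SG, Nat.card_eq_fintype_card, card_G] at h1
  omega

def SylS : Sylow 2 G := isPGroup_SG.toSylow (by rw [index_SG]; decide)

theorem SylS_coe : (SylS : Subgroup G) = SG := rfl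

/-- Every element of `S` is conjugate in `S` to its inverse. -/
theorem S_real (x : SylS) : ∃ h : SylS, x⁻¹ * h = h * x := by
  obtain ⟨⟨u, a, l⟩, hx⟩ := x
  have hl : inQ l = true := hx
  obtain ⟨v, hv⟩ := U_real u
  obtain ⟨m, hm, hml, b, hb⟩ := Q_real l hl a
  refine ⟨⟨⟨v, b, m⟩, hm⟩, ?_⟩
  apply Subtype.ext
  show (⟨u, a, l⟩ : G)⁻¹ * ⟨v, b, m⟩ = ⟨v, b, m⟩ * ⟨u, a, l⟩
  rw [G.inv_def, G.mul_def, G.mul_def]
  simp only [G.mk.injEq]
  refine ⟨add_comm _ _, ?_, ?_⟩
  · rw [act_mul, act_zp]; exact hb.symm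
  · rw [hv, hml, zp_add, mul_assoc l⁻¹ (zp (coc u u)) m, zp_comm]
    simp only [mul_assoc]

/-- For a complex representation of a finite group, `χ(g⁻¹)` is the conjugate of `χ(g)`. -/
theorem char_inv_conj {H : Type*} [Group H] [Fintype H] {V : Type*} [AddCommGroup V]
    [Module ℂ V] [FiniteDimensional ℂ V] (σ : Representation ℂ H V) (g : H) :
    σ.character g⁻¹ = star (σ.character g) := by
  classical
  let b := Module.finBasis ℂ V
  let R : H → Matrix (Fin (finrank ℂ V)) (Fin (finrank ℂ V)) ℂ :=
    fun h => LinearMap.toMatrix b b (σ h)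
  have hmul : ∀ x y : H, R (x * y) = R x * R y := by
    intro x y
    show LinearMap.toMatrix b b (σ (x * y)) = _
    rw [map_mul, Module.End.mul_eq_comp, LinearMap.toMatrix_comp b b b]
  have hone : R 1 = 1 := by
    show LinearMap.toMatrix b b (σ 1) = _
    rw [map_one, Module.End.one_eq_id, LinearMap.toMatrix_id]
  have htr : ∀ x : H, σ.character x = (R x).trace := by
    intro x
    rw [character, LinearMap.trace_eq_matrix_trace ℂ b]
  let B := ∑ h : H, (R h).conjTranspose * R h
  have hB : ∀ x : H, (R x).conjTranspose * B * R x = B := by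
    intro x
    show (R x).conjTranspose * (∑ h : H, (R h).conjTranspose * R h) * R x = _
    rw [Finset.mul_sum, Finset.sum_mul]
    have h1 : ∀ h : H, (R x).conjTranspose * ((R h).conjTranspose * R h) * R x =
        (R (h * x)).conjTranspose * R (h * x) := by
      intro h
      rw [hmul, Matrix.conjTranspose_mul]
      simp only [Matrix.mul_assoc]
    rw [Finset.sum_congr rfl fun h _ => h1 h]
    exact Equiv.sum_comp (Equiv.mulRight x) (fun h => (R h).conjTranspose * R h)
  have hpd : B.PosDef := by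
    have h1 : B = (R 1).conjTranspose * R 1 +
        ∑ h ∈ Finset.univ.erase (1 : H), (R h).conjTranspose * R h :=
      (Finset.add_sum_erase _ _ (Finset.mem_univ 1)).symm
    rw [h1, hone, Matrix.conjTranspose_one, one_mul]
    apply Matrix.PosDef.add_posSemidef Matrix.PosDef.one
    exact Matrix.posSemidef_sum _ fun h _ => Matrix.posSemidef_conjTranspose_mul_self _
  obtain ⟨Bu, hBu⟩ := hpd.isUnit
  have hinv : R g * R g⁻¹ = 1 := by rw [← hmul, mul_inv_cancel, hone]
  have h2 : (R g).conjTranspose * B = B * R g⁻¹ := by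
    have h3 := congrArg (fun M => M * R g⁻¹) (hB g)
    simp only [Matrix.mul_assoc] at h3
    rw [hinv, Matrix.mul_one] at h3
    exact h3
  rw [htr, htr, ← Matrix.trace_conjTranspose]
  have h4 : (R g).conjTranspose = B * R g⁻¹ * (↑Bu⁻¹ : Matrix _ _ ℂ) := by
    rw [← h2, ← hBu, Matrix.mul_assoc, Units.mul_inv, Matrix.mul_one]
  rw [h4, Matrix.trace_mul_comm, ← Matrix.mul_assoc, ← hBu, Units.inv_mul, Matrix.one_mul]

theorem S_char_real {V : Type*} [AddCommGroup V] [Module ℂ V] [FiniteDimensional ℂ V]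
    (σ : Representation ℂ SylS V) (g : SylS) : (σ.character g).im = 0 := by
  have : Fintype SylS := Fintype.ofFinite _
  have h1 := char_inv_conj σ g
  obtain ⟨h, hh⟩ := S_real g
  rw [char_eq_of_conj σ hh] at h1
  exact Complex.conj_eq_iff_im.mp h1.symm

end

end Pool.Agent.Work.MP_30c208_al
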