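import Mathlib
import Pool.Agent.Work.MP_30c208_al.Syl

set_option autoImplicit false
set_option linter.constructorNameAsVariable false
set_option linter.unusedSectionVars false

namespace Pool.Agent.Work.MP_30c208_al

open Representation Module G Matrix

noncomputable section

/-- A representation with one-dimensional endomorphism algebra is irreducible. -/
theorem irr_of_finrank {H : Type*} [Group H] [Fintype H] {V : Type*} [AddCommGroup V]
    [Module ℂ V] [FiniteDimensional ℂ V] (σ : Representation ℂ H V)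
    (h : finrank ℂ (IntertwiningMap σ σ) = 1) : σ.IsIrreducible := by
  have hc : (Nat.card H : ℂ) ≠ 0 := by
    rw [Nat.card_eq_fintype_card]; exact_mod_cast Fintype.card_ne_zero
  have : NeZero (Nat.card H : ℂ) := ⟨hc⟩
  obtain ⟨w, hw0, hw⟩ := finrank_eq_one_iff'.mp h
  obtain ⟨c0, hc0⟩ := hw (IntertwiningMap.id σ)
  have hwsc : ∀ f : IntertwiningMap σ σ, ∃ c : ℂ, ∀ v, f v = c • v := by
    have hc0' : c0 ≠ 0 := by
      rintro rfl
      rw [zero_smul] at hc0
      apply hw0
      have h1 : ∀ v : V, v = 0 := by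
        intro v
        have := congrArg (fun f : IntertwiningMap σ σ => f v) hc0
        exact this.symm
      apply IntertwiningMap.ext
      apply LinearMap.ext
      intro v
      rw [h1 v, map_zero, map_zero]
    intro f
    obtain ⟨c, hc⟩ := hw f
    refine ⟨c * c0⁻¹, fun v => ?_⟩
    have h2 : c0 • w v = v := by
      have := congrArg (fun f : IntertwiningMap σ σ => f v) hc0
      exact this
    have h3 : c • w v = f v := by
      have := congrArg (fun f : IntertwiningMap σ σ => f v) hc
      exact this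
    rw [← h3, mul_smul]
    congr 1
    rw [← h2]
    rw [smul_smul, inv_mul_cancel₀ hc0', one_smul, h2]
  have hnt : Nontrivial V := by
    by_contra hn
    rw [not_nontrivial_iff_subsingleton] at hn
    apply hw0
    apply IntertwiningMap.ext
    apply LinearMap.ext
    intro v
    exact Subsingleton.elim _ _
  refine { exists_pair_ne := ⟨⊥, ⊤, ?_⟩, eq_bot_or_eq_top := ?_ }
  · intro hbt
    obtain ⟨v, hv⟩ := exists_ne (0 : V)
    have h1 : v ∈ (⊤ : Subrepresentation σ).toSubmodule := Submodule.mem_top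
    rw [← hbt] at h1
    exact hv ((Submodule.mem_bot ℂ).mp h1)
  · intro p
    obtain ⟨q, hq⟩ := exists_isCompl p
    have hcl : IsCompl p.toSubmodule q.toSubmodule := by
      constructor
      · rw [disjoint_iff]
        exact congrArg Subrepresentation.toSubmodule (disjoint_iff.mp hq.1)
      · rw [codisjoint_iff]
        exact congrArg Subrepresentation.toSubmodule (codisjoint_iff.mp hq.2)
    have hdec : ∀ v : V, ∃ a ∈ p.toSubmodule, ∃ b ∈ q.toSubmodule, a + b = v := by
      intro v
      have : v ∈ p.toSubmodule ⊔ q.toSubmodule := by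
        rw [hcl.sup_eq_top]; exact Submodule.mem_top
      exact Submodule.mem_sup.mp this
    let T : V →ₗ[ℂ] V := p.toSubmodule.subtype ∘ₗ
      Submodule.projectionOnto p.toSubmodule q.toSubmodule hcl
    have hT : ∀ a ∈ p.toSubmodule, ∀ b ∈ q.toSubmodule, T (a + b) = a := by
      intro a ha b hb
      have h1 : Submodule.projectionOnto p.toSubmodule q.toSubmodule hcl a = ⟨a, ha⟩ :=
        Submodule.projectionOnto_apply_left hcl ⟨a, ha⟩
      have h2 : Submodule.projectionOnto p.toSubmodule q.toSubmodule hcl b = 0 :=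
        Submodule.projectionOnto_apply_right hcl ⟨b, hb⟩
      simp only [T, LinearMap.comp_apply, map_add]
      rw [h1, h2]
      simp
    let f : IntertwiningMap σ σ := ⟨T, by
      intro g
      apply LinearMap.ext
      intro v
      obtain ⟨a, ha, b, hb, rfl⟩ := hdec v
      simp only [LinearMap.comp_apply]
      rw [map_add, hT _ (p.apply_mem_toSubmodule g ha) _ (q.apply_mem_toSubmodule g hb),
        hT _ ha _ hb]⟩
    obtain ⟨c, hc⟩ := hwsc f
    have hcT : ∀ v, T v = c • v := hc
    by_cases hc0 : c = 0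
    · left
      apply Subrepresentation.toSubmodule_injective
      show p.toSubmodule = ⊥
      rw [Submodule.eq_bot_iff]
      intro x hx
      have h1 := hT x hx 0 (Submodule.zero_mem _)
      rw [add_zero, hcT, hc0, zero_smul] at h1
      exact h1.symm
    · right
      apply Subrepresentation.toSubmodule_injective
      show p.toSubmodule = ⊤
      rw [Submodule.eq_top_iff']
      intro x
      have h1 : T x ∈ p.toSubmodule := Submodule.coe_mem _
      rw [hcT] at h1
      exact (Submodule.smul_mem_iff _ hc0).mp h1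

theorem irr_of_norm {H : Type*} [Group H] [Fintype H] {V : Type*} [AddCommGroup V]
    [Module ℂ V] [FiniteDimensional ℂ V] (σ : Representation ℂ H V)
    (h : ∑ g : H, σ.character g * σ.character g⁻¹ = Fintype.card H) : σ.IsIrreducible := by
  apply irr_of_finrank
  have hc : (Fintype.card H : ℂ) ≠ 0 := by exact_mod_cast Fintype.card_ne_zero
  have : Invertible (Nat.card H : ℂ) := by
    rw [Nat.card_eq_fintype_card]; exact invertibleOfNonzero hc
  have h1 := card_inv_mul_sum_char_mul_char_eq_finrank (ρ := σ) (σ := σ)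
  rw [h, Nat.card_eq_fintype_card, inv_mul_cancel₀ hc] at h1
  exact_mod_cast h1.symm

/-- Quaternion matrices. -/
def E (u : U) : Matrix (Fin 2) (Fin 2) ℂ :=
  if u.1 = 0 then (if u.2 = 0 then 1 else !![0, 1; -1, 0])
  else (if u.2 = 0 then !![Complex.I, 0; 0, -Complex.I]
    else !![0, -Complex.I; -Complex.I, 0])

def sg (r : ZMod 2) : ℂ := if r = 0 then 1 else -1

theorem z2_cases (a : ZMod 2) : a = 0 ∨ a = 1 := by
  revert a; decide

theorem E_mul (u v : U) : E u * E v = sg (coc u v) • E (u + v) := by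
  obtain ⟨u1, u2⟩ := u
  obtain ⟨v1, v2⟩ := v
  have h11 : (1 : ZMod 2) + 1 = 0 := rfl
  have h10 : (1 : ZMod 2) ≠ 0 := by decide
  rcases z2_cases u1 with rfl | rfl <;> rcases z2_cases u2 with rfl | rfl <;>
    rcases z2_cases v1 with rfl | rfl <;> rcases z2_cases v2 with rfl | rfl <;>
    simp [E, sg, coc, h11, h10, Matrix.one_fin_two, Complex.I_mul_I]

theorem E_zero : E 0 = 1 := by simp [E]

theorem E_trace (u : U) : (E u).trace = if u = 0 then 2 else 0 := by
  obtain ⟨u1, u2⟩ := u
  have h10 : (1 : ZMod 2) ≠ 0 := by decide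
  rcases z2_cases u1 with rfl | rfl <;> rcases z2_cases u2 with rfl | rfl <;>
    simp [E, Matrix.trace_fin_two, Prod.ext_iff, h10]

/-- The monomial matrices. -/
def M (a : A) (q : L) : Matrix (Fin 4) (Fin 4) ℂ := fun c d => ((DD a c * RR q c d : ℤ) : ℂ)

theorem M_mul (a b : A) (q r : L) (hq : inQ q = true) (hr : inQ r = true) :
    M a q * M b r = M (a + act q b) (q * r) := by
  ext c d
  rw [Matrix.mul_apply]
  simp only [M]
  rw [DD_add, RR_mul q r hq hr, Fin.sum_univ_four]
  have h := RR_DD q hq b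
  have e : ∀ j : Fin 4, (DD a c * RR q c j : ℤ) * (DD b j * RR r j d) =
      DD a c * DD (act q b) c * (RR q c j * RR r j d) := by
    intro j
    have := h c j
    calc (DD a c * RR q c j : ℤ) * (DD b j * RR r j d)
        = DD a c * (RR q c j * DD b j) * RR r j d := by ring
      _ = _ := by rw [this]; ring
  rw [← Int.cast_mul, ← Int.cast_mul, ← Int.cast_mul, ← Int.cast_mul, e, e, e, e,
    ← Int.cast_add, ← Int.cast_add, ← Int.cast_add]
  congr 1
  ring

theorem M_one : M 0 1 = 1 := by
  ext c d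
  simp only [M]
  rw [DD_zero, RR_one, one_mul, Matrix.one_apply]
  split_ifs <;> simp

theorem M_z (a : A) (q : L) (hq : inQ q = true) : M a (q * z) = -M a q := by
  have hz : inQ z = true := inQ_zp 1
  have h1 : M 0 z = -1 := by
    ext c d
    simp only [M]
    rw [DD_zero, RR_z, one_mul, Matrix.neg_apply, Matrix.one_apply]
    split_ifs <;> simp
  have h2 := M_mul a 0 q z hq hz
  rw [act_zero, add_zero, h1, mul_neg, mul_one] at h2
  exact h2.symm

theorem M_zp (a : A) (q : L) (hq : inQ q = true) (r : ZMod 2) :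
    M a (q * zp r) = sg r • M a q := by
  unfold zp sg
  split_ifs
  · simp
  · rw [M_z a q hq]; simp

theorem M_trace (a : A) (q : L) : (M a q).trace = (trM a q : ℤ) := by
  rw [Matrix.trace, Fin.sum_univ_four]
  simp only [Matrix.diag_apply, M, trM]
  push_cast
  ring

/-- The matrices of the 8-dimensional representation. -/
def Wmat (x : G) : Matrix (Fin 2 × Fin 4) (Fin 2 × Fin 4) ℂ :=
  Matrix.kroneckerMap (· * ·) (E x.u) (M x.a x.l)

theorem Wmat_mul (x y : G) (hx : inQ x.l = true) (hy : inQ y.l = true) :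
    Wmat (x * y) = Wmat x * Wmat y := by
  have h1 : Wmat x * Wmat y =
      Matrix.kroneckerMap (· * ·) (E x.u * E y.u) (M x.a x.l * M y.a y.l) :=
    (Matrix.mul_kronecker_mul _ _ _ _).symm
  rw [h1, E_mul, M_mul _ _ _ _ hx hy]
  show Matrix.kroneckerMap (· * ·) (E (x.u + y.u))
    (M (x.a + act x.l y.a) (x.l * y.l * zp (coc x.u y.u))) = _
  rw [M_zp _ _ (inQ_mul _ _ hx hy)]
  ext i j
  simp only [Matrix.kroneckerMap_apply, Matrix.smul_apply, smul_eq_mul]
  ring

theorem Wmat_one : Wmat 1 = 1 := by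
  show Matrix.kroneckerMap (· * ·) (E 0) (M 0 1) = 1
  rw [E_zero, M_one]
  exact Matrix.one_kronecker_one

/-- The 8-dimensional representation of the Sylow 2-subgroup. -/
def W : Representation ℂ SG (Fin 2 × Fin 4 → ℂ) where
  toFun x := Matrix.toLin' (Wmat x.1)
  map_one' := by
    show Matrix.toLin' (Wmat 1) = 1
    rw [Wmat_one, Matrix.toLin'_one]; rfl
  map_mul' x y := by
    show Matrix.toLin' (Wmat (x.1 * y.1)) = _
    rw [Wmat_mul _ _ x.2 y.2, Matrix.toLin'_mul]; rfl

theorem W_char (x : SG) :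
    W.character x = (if x.1.u = 0 then 2 else 0) * ((trM x.1.a x.1.l : ℤ) : ℂ) := by
  show LinearMap.trace ℂ _ (Matrix.toLin' (Wmat x.1)) = _
  rw [Matrix.trace_toLin'_eq, Wmat]
  rw [Matrix.trace_kronecker, E_trace, M_trace]

theorem sum_S {N : Type*} [AddCommMonoid N] [Fintype SG] (f : G → N) :
    ∑ x : SG, f x.1 = ∑ u : U, ∑ a : A, ∑ l : {l : L // inQ l = true}, f ⟨u, a, l.1⟩ := by
  have h : ∑ x : SG, f x.1 = ∑ y : U × A × {l : L // inQ l = true}, f ⟨y.1, y.2.1, y.2.2.1⟩ :=
    Fintype.sum_equiv equivSG _ _ (fun x => rfl)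
  rw [h, Fintype.sum_prod_type]
  refine Finset.sum_congr rfl fun u _ => ?_
  rw [Fintype.sum_prod_type]

theorem fcard_SG [Fintype SG] : Fintype.card SG = 512 := by
  rw [← Nat.card_eq_fintype_card]; exact card_SG

theorem W_norm [Fintype SG] :
    ∑ x : SG, W.character x * W.character x⁻¹ = Fintype.card SG := by
  have h1 : ∀ x : SG, W.character x * W.character x⁻¹ =
      (fun y : G => (if y.u = 0 then 4 else 0) *
        (((trM y.a y.l) * (trM (act y.l⁻¹ y.a) y.l⁻¹) : ℤ) : ℂ)) x.1 := by
    intro x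
    rw [W_char, W_char]
    have e1 : (x⁻¹).1.u = x.1.u := rfl
    have e2 : (x⁻¹).1.a = act x.1.l⁻¹ x.1.a := rfl
    have e3 : (x⁻¹).1.l = x.1.l⁻¹ * zp (coc x.1.u x.1.u) := rfl
    rw [e1, e2, e3]
    by_cases hu : x.1.u = 0
    · rw [if_pos hu, hu, coc_zero_left, zp_zero, mul_one]
      simp only [hu, if_true]
      push_cast
      ring
    · simp only [hu, if_false, zero_mul]
  rw [Finset.sum_congr rfl fun x _ => h1 x, sum_S (fun y : G => (if y.u = 0 then (4 : ℂ) else 0) *
        (((trM y.a y.l) * (trM (act y.l⁻¹ y.a) y.l⁻¹) : ℤ) : ℂ)), fcard_SG]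
  simp only
  have h2 : ∀ u : U, ∑ a : A, ∑ l : {l : L // inQ l = true}, (if u = 0 then (4 : ℂ) else 0) *
        (((trM a l.1) * (trM (act l.1⁻¹ a) l.1⁻¹) : ℤ) : ℂ) = if u = 0 then 512 else 0 := by
    intro u
    split_ifs
    · have h3 := sum_norm
      have h4 : ∑ a : A, ∑ l : {l : L // inQ l = true},
          (((trM a l.1) * (trM (act l.1⁻¹ a) l.1⁻¹) : ℤ) : ℂ) = 128 := by
        exact_mod_cast congrArg (Int.cast : ℤ → ℂ) h3
      simp only [← Finset.mul_sum]
      rw [h4]; norm_num
    · simp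
  rw [Finset.sum_congr rfl fun u _ => h2 u]
  simp

theorem W_nu [Fintype SG] : nu W = -1 := by
  rw [nu, fcard_SG]
  have h1 : ∀ x : SG, W.character (x ^ 2) =
      (fun y : G => 2 * (sg (coc y.u y.u) *
        ((trM (y.a + act y.l y.a) (y.l * y.l) : ℤ) : ℂ))) x.1 := by
    intro x
    rw [W_char]
    have e0 : (x ^ 2).1 = (⟨0, x.1.a + act x.1.l x.1.a, x.1.l * x.1.l *
      zp (coc x.1.u x.1.u)⟩ : G) := sq_def x.1.u x.1.a x.1.l
    rw [e0]
    simp only [if_true]
    congr 1
    have hQ : inQ (x.1.l * x.1.l) = true := inQ_mul _ _ x.2 x.2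
    rw [← M_trace, ← M_trace, M_zp _ _ hQ, Matrix.trace_smul, smul_eq_mul]
  rw [Finset.sum_congr rfl fun x _ => h1 x, sum_S (fun y : G => 2 * (sg (coc y.u y.u) *
        ((trM (y.a + act y.l y.a) (y.l * y.l) : ℤ) : ℂ)))]
  simp only
  have h4 : ∑ a : A, ∑ l : {l : L // inQ l = true},
      (((trM (a + act l.1 a) (l.1 * l.1)) : ℤ) : ℂ) = 128 := by
    exact_mod_cast congrArg (Int.cast : ℤ → ℂ) sum_sq
  simp only [← Finset.mul_sum]
  rw [h4, ← Finset.sum_mul]
  have h5 : ∑ u : U, sg (coc u u) = -2 := by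
    rw [Fintype.sum_prod_type]
    have : (Finset.univ : Finset (ZMod 2)) = {0, 1} := rfl
    rw [this]
    have h11 : (1 : ZMod 2) + 1 = 0 := rfl
    simp [sg, coc, h11]
    norm_num
  rw [h5]
  norm_num

theorem W_irr : W.IsIrreducible := by
  have : Fintype SG := Fintype.ofFinite _
  exact irr_of_norm W W_norm

end

end Pool.Agent.Work.MP_30c208_al
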